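import Pool.Agent.Run7.h202.RP.Stm

set_option autoImplicit false

/-! Project RP: the deterministic core. -/

namespace Pool.Agent.Run7.h637.RP

open Finset Pool.Agent.H234RC Pool.Agent.TH953.RC Pool.Agent.Y395.RS Pool.Agent.Y395.RW
  Pool.Agent.Run7.h202.RP

/-- the degrees inside `M` -/
theorem hand {V : Type} [Fintype V] [DecidableEq V] (F : Finset (Sym2 V)) (M : Finset V) :
    ∑ y ∈ M, (nb (gr F) M y).card ≤ 2 * eIn F M := by
  classical
  have e1 : ∑ y ∈ M, (nb (gr F) M y).card =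
      ((M ×ˢ M).filter (fun q => (gr F).Adj q.1 q.2)).card := by
    rw [card_filter, sum_product]
    apply sum_congr rfl
    intro y _
    unfold nb
    rw [card_filter]
  rw [e1]
  unfold eIn
  apply card_le_mul_card_image_of_maps_to (f := fun q : V × V => s(q.1, q.2))
  · intro q hq
    rw [mem_filter, mem_product] at hq
    simp only [mem_filter]
    refine ⟨((gr_adj F _ _).1 hq.2).1, ?_⟩
    intro v hv
    rcases Sym2.mem_iff.1 hv with rfl | rfl
    · exact hq.1.1
    · exact hq.1.2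
  · intro e _
    induction e using Sym2.ind with
    | _ a b =>
      have hsub : ((M ×ˢ M).filter (fun q => (gr F).Adj q.1 q.2)).filter
          (fun q => s(q.1, q.2) = s(a, b)) ⊆ {(a, b), (b, a)} := by
        intro q hq
        rw [mem_filter] at hq
        rw [mem_insert, mem_singleton]
        rcases Sym2.eq_iff.1 hq.2 with ⟨h1, h2⟩ | ⟨h1, h2⟩
        · exact Or.inl (Prod.ext h1 h2)
        · exact Or.inr (Prod.ext h1 h2)
      exact (card_le_card hsub).trans card_le_two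

theorem t_DET : DET := by
  classical
  intro V _ _ F L d c l s _ hd hc hl hS hφ x hx φ hNA hx1 hx2
  by_contra hne
  set M : Finset V := (mv φ) \ L with hM
  have hmem : ∀ y, y ∈ M ↔ (y ≠ φ.2.1 ∧ y ≠ φ.2.2 ∧ φ.1 y ≠ y) ∧ y ∉ L := by
    intro y
    rw [hM, mem_sdiff]
    unfold mv
    rw [mem_filter]
    exact ⟨fun h => ⟨h.1.2, h.2⟩, fun h => ⟨⟨mem_univ _, h.1⟩, h.2⟩⟩
  have hxM : x ∈ M := (hmem x).2 ⟨⟨hx1, hx2, hne⟩, hx⟩
  have hcard : M.card ≤ s := (card_le_card sdiff_subset).trans (hφ φ hNA)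
  have hlt := hS M ⟨x, hxM⟩ hcard
  have hdeg : ∀ y ∈ M, d - 2 - c - l ≤ (nb (gr F) M y).card := by
    intro y hy
    obtain ⟨⟨hy1, hy2, hy3⟩, hy4⟩ := (hmem y).1 hy
    have hsub : nb (gr F) univ y ⊆ ((nb (gr F) M y ∪ {φ.2.1, φ.2.2}) ∪ nb (gr F) L y) ∪
        univ.filter (fun z => (gr F).Adj (φ.1 y) z ∧ (gr F).Adj y z) := by
      intro z hz
      have hadj : (gr F).Adj y z := ((mem_nb _ _ _ _).1 hz).2
      rw [mem_union, mem_union, mem_union]
      by_cases hz1 : z = φ.2.1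
      · refine Or.inl (Or.inl (Or.inr ?_))
        rw [mem_insert]
        exact Or.inl hz1
      by_cases hz2 : z = φ.2.2
      · refine Or.inl (Or.inl (Or.inr ?_))
        rw [mem_insert, mem_singleton]
        exact Or.inr hz2
      by_cases hz3 : z ∈ L
      · exact Or.inl (Or.inr ((mem_nb _ _ _ _).2 ⟨hz3, hadj⟩))
      by_cases hz4 : φ.1 z = z
      · refine Or.inr ?_
        rw [mem_filter]
        refine ⟨mem_univ _, ?_, hadj⟩
        have h := (hNA y z hy1 hy2 hz1 hz2).2 hadj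
        rwa [hz4] at h
      · exact Or.inl (Or.inl (Or.inl ((mem_nb _ _ _ _).2
          ⟨(hmem z).2 ⟨⟨hz1, hz2, hz4⟩, hz3⟩, hadj⟩)))
    have h1 := card_le_card hsub
    have h2 := card_union_le ((nb (gr F) M y ∪ {φ.2.1, φ.2.2}) ∪ nb (gr F) L y)
      (univ.filter (fun z => (gr F).Adj (φ.1 y) z ∧ (gr F).Adj y z))
    have h3 := card_union_le (nb (gr F) M y ∪ {φ.2.1, φ.2.2}) (nb (gr F) L y)
    have h4 := card_union_le (nb (gr F) M y) ({φ.2.1, φ.2.2} : Finset V)
    have h5 : ({φ.2.1, φ.2.2} : Finset V).card ≤ 2 := card_le_two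
    have h6 := hl y
    have h7 : (univ.filter (fun z => (gr F).Adj (φ.1 y) z ∧ (gr F).Adj y z)).card ≤ c := by
      have h := hc (φ.1 y) y hy3
      unfold cod at h
      convert h
    have h8 : d ≤ (nb (gr F) univ y).card := hd y hy4
    omega
  have hsum : M.card * (d - 2 - c - l) ≤ ∑ y ∈ M, (nb (gr F) M y).card := by
    rw [← smul_eq_mul]
    exact card_nsmul_le_sum _ _ _ hdeg
  have hh := hand F M
  rw [mul_comm] at hsum
  omega

end Pool.Agent.Run7.h637.RP
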