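import Pool.Agent.Run7.h202.RP.Stm

set_option autoImplicit false

/-! Project RP: small sets of vertices span few edges. -/

namespace Pool.Agent.Run7.h637.RP

open Finset Filter Pool.Agent.H234RC Pool.Agent.TH953.RC Pool.Agent.Y395.RS Pool.Agent.Y395.RW
  Pool.Agent.Run7.h202.RP

theorem pr_sub {α : Type} [DecidableEq α] (p : ℝ) (h0 : 0 ≤ p) (h1 : p ≤ 1) (E A : Finset α)
    (hA : A ⊆ E) : pr (fun _ => p) E (fun F => A ⊆ F) ≤ p ^ A.card := by
  classical
  apply pr_cond (fun _ => h0) (fun _ => h1) E A hA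
  intro F0 hF0
  unfold pr
  have hsub : A.powerset.filter (fun B => A ⊆ F0 ∪ B) ⊆ {A} := by
    intro B hB
    rw [mem_filter, mem_powerset] at hB
    rw [mem_singleton]
    apply subset_antisymm hB.1
    intro a ha
    rcases mem_union.1 (hB.2 ha) with h | h
    · exact absurd ha (mem_sdiff.1 (hF0 h)).2
    · exact h
  refine le_trans (sum_le_sum_of_subset_of_nonneg (t := {A}) ?_ ?_) ?_
  · intro B hB
    apply hsub
    simp only [mem_filter] at hB ⊢
    exact hB
  · intro B _ _
    exact wt_nonneg (fun _ => h0) (fun _ => h1) _ _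
  · rw [sum_singleton]
    unfold wt
    rw [Finset.sdiff_self, prod_empty, prod_const, mul_one]

/-- the numerical bound -/
theorem num_bd (M k : ℕ) (p q : ℝ) (h0 : 0 ≤ p) (h : (M : ℝ) * p * Real.exp 40001 ≤ q)
    (hq : q ≤ k) : (M.choose k : ℝ) * p ^ k ≤ Real.exp (-40000 * q) := by
  have h1 : (M.choose k : ℝ) ≤ (M : ℝ) ^ k / (k.factorial : ℝ) := Nat.choose_le_pow_div k M
  have h2 : (M : ℝ) ^ k / (k.factorial : ℝ) * p ^ k =
      ((M : ℝ) * p * Real.exp 40001) ^ k / (k.factorial : ℝ) * Real.exp (-40001) ^ k := by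
    rw [mul_pow, mul_pow]
    have h3 : Real.exp 40001 ^ k * Real.exp (-40001) ^ k = 1 := by
      rw [← mul_pow, ← Real.exp_add]
      norm_num
    calc (M : ℝ) ^ k / (k.factorial : ℝ) * p ^ k
        = (M : ℝ) ^ k / (k.factorial : ℝ) * p ^ k *
          (Real.exp 40001 ^ k * Real.exp (-40001) ^ k) := by rw [h3, mul_one]
      _ = _ := by ring
  have h4 : ((M : ℝ) * p * Real.exp 40001) ^ k / (k.factorial : ℝ) ≤
      Real.exp ((M : ℝ) * p * Real.exp 40001) :=
    Real.pow_div_factorial_le_exp _ (by positivity) k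
  calc (M.choose k : ℝ) * p ^ k ≤ (M : ℝ) ^ k / (k.factorial : ℝ) * p ^ k :=
        mul_le_mul_of_nonneg_right h1 (by positivity)
    _ = ((M : ℝ) * p * Real.exp 40001) ^ k / (k.factorial : ℝ) * Real.exp (-40001) ^ k := h2
    _ ≤ Real.exp ((M : ℝ) * p * Real.exp 40001) * Real.exp (-40001) ^ k :=
        mul_le_mul_of_nonneg_right h4 (by positivity)
    _ = Real.exp ((M : ℝ) * p * Real.exp 40001 + k * (-40001)) := by
        rw [← Real.exp_nat_mul, ← Real.exp_add]
    _ ≤ Real.exp (-40000 * q) := by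
        apply Real.exp_le_exp.2
        nlinarith [h, hq]

/-- the bound for one set `S` -/
theorem one_set {V : Type} [Fintype V] [DecidableEq V] (n : ℕ) (hn : 1 ≤ n) (p : ℝ) (h0 : 0 ≤ p)
    (h1 : p ≤ 1) (hp : p ≤ 400 * Real.log n / n) (S : Finset V)
    (hS : (S.card : ℝ) ≤ Real.exp (-40001) / 1600000 * n) :
    P (V := V) p (fun F => Real.log n / 2000 * S.card ≤ 2 * eIn F S) ≤
      (1 / (n : ℝ)) ^ (10 * S.card) := by
  classical
  have hn0 : (0 : ℝ) < n := by exact_mod_cast hn
  have hL : 0 ≤ Real.log n := Real.log_natCast_nonneg n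
  set q : ℝ := S.card * Real.log n / 4000 with hq
  set k : ℕ := ⌈q⌉₊ with hk
  set PS : Finset (Sym2 V) := (pairs V).filter (fun e => ∀ v ∈ e, v ∈ S) with hPS
  have hPSc : PS.card ≤ S.card * S.card := by
    have hsub : PS ⊆ (S ×ˢ S).image (fun r => s(r.1, r.2)) := by
      intro e he
      rw [hPS, mem_filter] at he
      rw [mem_image]
      induction e using Sym2.ind with
      | _ a b =>
        refine ⟨(a, b), ?_, rfl⟩
        rw [mem_product]
        exact ⟨he.2 a (Sym2.mem_mk_left a b), he.2 b (Sym2.mem_mk_right a b)⟩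
    refine (card_le_card hsub).trans (card_image_le.trans ?_)
    rw [card_product]
  have hA : P (V := V) p (fun F => Real.log n / 2000 * S.card ≤ 2 * eIn F S) ≤
      ∑ A ∈ powersetCard k PS, p ^ k := by
    unfold P
    refine le_trans (pr_mono (fun _ => h0) (fun _ => h1)
      (Q := fun F => ∃ A ∈ powersetCard k PS, A ⊆ F) ?_) ?_
    · intro F hF h
      have h2 : k ≤ eIn F S := by
        rw [hk, Nat.ceil_le, hq]
        linarith
      unfold eIn at h2
      obtain ⟨A, hA1, hA2⟩ := exists_subset_card_eq h2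
      have hA3 : ∀ e ∈ A, e ∈ F ∧ ∀ v ∈ e, v ∈ S := by
        intro e he
        have h4 := hA1 he
        simp only [mem_filter] at h4
        exact h4
      refine ⟨A, ?_, fun e he => (hA3 e he).1⟩
      rw [mem_powersetCard]
      refine ⟨fun e he => ?_, hA2⟩
      have h3 := hA3 e he
      rw [hPS, mem_filter]
      exact ⟨hF h3.1, h3.2⟩
    · refine (pr_ex (fun _ => h0) (fun _ => h1) _ _ _).trans (sum_le_sum fun A hA => ?_)
      rw [mem_powersetCard] at hA
      have h3 := pr_sub p h0 h1 (pairs V) A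
        (fun e he => (mem_filter.1 (hA.1 he)).1)
      rw [hA.2] at h3
      exact h3
  rw [sum_const, card_powersetCard, nsmul_eq_mul] at hA
  refine hA.trans ?_
  have hM : (PS.card : ℝ) * p * Real.exp 40001 ≤ q := by
    have h2 : (PS.card : ℝ) ≤ S.card * S.card := by exact_mod_cast hPSc
    have h3 : (S.card : ℝ) * p * Real.exp 40001 ≤ Real.log n / 4000 := by
      calc (S.card : ℝ) * p * Real.exp 40001
          ≤ (Real.exp (-40001) / 1600000 * n) * (400 * Real.log n / n) * Real.exp 40001 := by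
            gcongr
        _ = (Real.exp (-40001) * Real.exp 40001) * (Real.log n / 4000) := by
            field_simp
            ring
        _ = Real.log n / 4000 := by
            rw [← Real.exp_add]
            norm_num
    calc (PS.card : ℝ) * p * Real.exp 40001
        ≤ (S.card * S.card) * p * Real.exp 40001 := by gcongr
      _ = S.card * (S.card * p * Real.exp 40001) := by ring
      _ ≤ S.card * (Real.log n / 4000) := mul_le_mul_of_nonneg_left h3 (by positivity)
      _ = q := by rw [hq]; ring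
  refine (num_bd PS.card k p q h0 hM (Nat.le_ceil q)).trans (le_of_eq ?_)
  rw [one_div, inv_pow, ← Real.rpow_natCast, Real.rpow_def_of_pos hn0, ← Real.exp_neg, hq]
  congr 1
  push_cast
  ring

theorem t_SPARSE : SPARSE := by
  classical
  refine ⟨Real.exp (-40001) / 1600000, by positivity, ?_⟩
  have hl : ∀ᶠ n : ℕ in atTop, 400 * Real.log n / n ≤ 1 := by
    have h := (Real.isLittleO_log_id_atTop.tendsto_div_nhds_zero).comp tendsto_natCast_atTop_atTop
    have h2 := h.eventually (gt_mem_nhds (show (0 : ℝ) < 1 / 400 by norm_num))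
    filter_upwards [h2, eventually_ge_atTop 1] with n hn h1
    have hn0 : (0 : ℝ) < n := by exact_mod_cast h1
    simp only [Function.comp, id] at hn
    rw [mul_div_assoc]
    linarith
  filter_upwards [hl, eventually_ge_atTop 3] with n hn1 hn3 V _ _ p hV hp
  obtain ⟨hp1, hp2⟩ := hp
  have hn0 : (0 : ℝ) < n := by
    have : 0 < n := by omega
    exact_mod_cast this
  have hn3' : (3 : ℝ) ≤ n := by exact_mod_cast hn3
  have hL : 0 ≤ Real.log n := Real.log_natCast_nonneg n
  have h0 : 0 ≤ p := le_trans (by positivity) hp1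
  have h1 : p ≤ 1 := hp2.trans hn1
  set I : Finset (Finset V) := univ.filter (fun S : Finset V => S.Nonempty ∧
    (S.card : ℝ) ≤ Real.exp (-40001) / 1600000 * n) with hI
  have hU : P (V := V) p (fun F => ∃ S : Finset V, S.Nonempty ∧
      (S.card : ℝ) ≤ Real.exp (-40001) / 1600000 * n ∧
      Real.log n / 2000 * S.card ≤ 2 * eIn F S) ≤
      ∑ S ∈ I, (1 / (n : ℝ)) ^ (10 * S.card) := by
    unfold P
    refine le_trans (pr_mono (fun _ => h0) (fun _ => h1)
      (Q := fun F => ∃ S ∈ I, Real.log n / 2000 * S.card ≤ 2 * eIn F S) ?_) ?_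
    · rintro F _ ⟨S, hS1, hS2, hS3⟩
      refine ⟨S, ?_, hS3⟩
      rw [hI, mem_filter]
      exact ⟨mem_univ _, hS1, hS2⟩
    · refine (pr_ex (fun _ => h0) (fun _ => h1) _ I
        (fun (S : Finset V) F => Real.log n / 2000 * S.card ≤ 2 * eIn F S)).trans
        (sum_le_sum fun S hS => ?_)
      rw [hI, mem_filter] at hS
      exact one_set n (by omega) p h0 h1 hp2 S hS.2.2
  refine hU.trans ?_
  have hx0 : 0 ≤ 1 / (n : ℝ) := by positivity
  have hx1 : 1 / (n : ℝ) ≤ 1 := by
    rw [div_le_one hn0]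
    linarith
  have hterm : ∀ S ∈ I, (1 / (n : ℝ)) ^ (10 * S.card) ≤
      (1 / (n : ℝ)) ^ 9 * ((1 / (n : ℝ)) ^ S.card * 1 ^ (Fintype.card V - S.card)) := by
    intro S hS
    rw [hI, mem_filter] at hS
    have hpos : 1 ≤ S.card := hS.2.1.card_pos
    rw [one_pow, mul_one, ← pow_add]
    exact pow_le_pow_of_le_one hx0 hx1 (by omega)
  calc ∑ S ∈ I, (1 / (n : ℝ)) ^ (10 * S.card)
      ≤ ∑ S ∈ I, (1 / (n : ℝ)) ^ 9 *
        ((1 / (n : ℝ)) ^ S.card * 1 ^ (Fintype.card V - S.card)) := sum_le_sum hterm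
    _ ≤ ∑ S : Finset V, (1 / (n : ℝ)) ^ 9 *
        ((1 / (n : ℝ)) ^ S.card * 1 ^ (Fintype.card V - S.card)) := by
        apply sum_le_sum_of_subset_of_nonneg (subset_univ _)
        intro S _ _
        positivity
    _ = (1 / (n : ℝ)) ^ 9 * (1 / (n : ℝ) + 1) ^ n := by
        rw [← mul_sum, Fintype.sum_pow_mul_eq_add_pow, hV]
    _ ≤ (1 / (n : ℝ)) ^ 9 * 3 := by
        apply mul_le_mul_of_nonneg_left _ (by positivity)
        calc (1 / (n : ℝ) + 1) ^ n ≤ (Real.exp (1 / (n : ℝ))) ^ n := by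
              apply pow_le_pow_left₀ (by positivity)
              exact Real.add_one_le_exp _
          _ = Real.exp 1 := by
              rw [← Real.exp_nat_mul]
              congr 1
              field_simp
          _ ≤ 3 := by
              have := Real.exp_one_lt_d9
              linarith
    _ ≤ 1 / (n : ℝ) ^ 8 := by
        rw [one_div, inv_pow, one_div, pow_succ, mul_inv]
        have h8 : 0 < ((n : ℝ) ^ 8)⁻¹ := by positivity
        have h9 : (n : ℝ)⁻¹ * 3 ≤ 1 := by
          rw [inv_mul_le_iff₀ hn0]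
          linarith
        calc ((n : ℝ) ^ 8)⁻¹ * (n : ℝ)⁻¹ * 3 = ((n : ℝ) ^ 8)⁻¹ * ((n : ℝ)⁻¹ * 3) := by ring
          _ ≤ ((n : ℝ) ^ 8)⁻¹ * 1 := mul_le_mul_of_nonneg_left h9 h8.le
          _ = ((n : ℝ) ^ 8)⁻¹ := mul_one _

end Pool.Agent.Run7.h637.RP
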